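import Pool.Agent.Q255.SG.GQ

/-!
# Finitely many representations and a finite segment of the edge

Let `X/ℚ` be smooth and projective, `G = ST^i(X)` its Sato-Tate group for an even `i` (a compact
group), `S` a finite set of primes (the bad primes and `l`) and `x_p`, `p ∉ S`, the classes of the
problem (elements of `G`, up to conjugation).  For a continuous representation `τ` of `G` let
`L(τ, s) = ∏_{p ∉ S} det(1 - τ(x_p) p^{-s})⁻¹`, `Re s > 1`.  It is known that the classes are
equidistributed if all `L(τ, s)`, `τ` nontrivial and irreducible, extend continuously to `Re s ≥ 1`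
without zeros and poles.

We prove that for an approximate answer finitely many `τ` and a finite segment of the edge are enough,
and that these do not depend on `X`: for every compact group `G`, every open set `U` of `G`, invariant
under conjugation, and every `ε > 0` there are finitely many continuous representations `τ` of `G` and
a number `λ` such that for all finite sets `S` and all systems of classes `x_p` (so for all `X` and `i`
with `ST^i(X) = G`): if the functions `L(τ, s)` of these finitely many `τ` are continued to the segment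
`|t| < λ` of the edge, without zeros and poles except for the pole at `1` of order `m_τ` (the
multiplicity of the trivial representation), then the lower density of the primes with `x_p ∈ U` is at
least `μ(U) - ε`.  The same for the means of every continuous class function.  The continuation can be
replaced by a property of the boundary values of `|L(τ, s)|` on the segment, which exist without any
hypothesis: `x ∫ log |l_τ(t)| φ(t) e^{ixt} dt → π m_τ φ(0)` for smooth `φ` with support in `|t| < λ`.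
For all `τ` and all `φ` this property is equivalent to Q1.
-/

set_option autoImplicit false

namespace Pool.Agent.Results.MP_32ceeb_nt.FiniteCriterion

open Filter Topology MeasureTheory

section Definitions
variable {G : Type} [Group G] {n : ℕ}

/-- The mean of `f(p)` over the primes `p ≤ N`, `p ∉ S`. -/
noncomputable def mean (S : Set ℕ) (f : ℕ → ℂ) (N : ℕ) : ℂ :=
  (∑ᶠ p ∈ {p : ℕ | p ≤ N ∧ p.Prime ∧ p ∉ S}, f p) /
    (({p : ℕ | p ≤ N ∧ p.Prime ∧ p ∉ S} : Set ℕ).ncard : ℂ)

/-- The share, among the primes `p ≤ N`, `p ∉ S`, of those with `x_p ∈ U`. -/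
noncomputable def share (S : Set ℕ) (x : ℕ → G) (U : Set G) (N : ℕ) : ℝ :=
  (({p : ℕ | p ≤ N ∧ p.Prime ∧ p ∉ S ∧ x p ∈ U} : Set ℕ).ncard : ℝ) /
    (({p : ℕ | p ≤ N ∧ p.Prime ∧ p ∉ S} : Set ℕ).ncard : ℝ)

open Classical in
/-- `L(τ, z) = ∏_{p ∉ S} det(1 - τ(x_p) p^{-z})⁻¹`. -/
noncomputable def LFunction (S : Set ℕ) (x : ℕ → G) (τ : G →* Matrix.unitaryGroup (Fin n) ℂ)
    (z : ℂ) : ℂ :=
  ∏' p : Nat.Primes, if (p : ℕ) ∈ S then 1 else
    ((1 - (((p : ℕ) : ℂ) ^ (-z)) • (τ (x p) : Matrix (Fin n) (Fin n) ℂ)).det)⁻¹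

/-- The point `1 + it`. -/
noncomputable def edgePoint (t : ℝ) : ℂ := 1 + (t : ℂ) * Complex.I

/-- The angle `|z - (1 + it)| ≤ c (Re z - 1)` in the half-plane `Re z > 1`. -/
def angle (t c : ℝ) : Set ℂ := {z : ℂ | 1 < z.re ∧ ‖z - edgePoint t‖ ≤ c * (z.re - 1)}

/-- `l` is the boundary function of `L` on the edge `Re z = 1`: outside a set of Hausdorff dimension
`0` its values are not zero, and they are the limits of `L` in every angle. -/
def IsBoundaryFunction (L : ℂ → ℂ) (l : ℝ → ℂ) : Prop :=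
  ∃ T : Set ℝ, dimH T = 0 ∧ ∀ t : ℝ, t ∉ T → l t ≠ 0 ∧
    ∀ c : ℝ, Tendsto L (𝓝[angle t c] (edgePoint t)) (𝓝 (l t))

/-- Smooth functions with compact support. -/
def IsTest (φ : ℝ → ℂ) : Prop := ContDiff ℝ (⊤ : ℕ∞) φ ∧ HasCompactSupport φ

/-- `∫ log |l(t)| φ(t) e^{iyt} dt`. -/
noncomputable def edgeIntegral (l φ : ℝ → ℂ) (y : ℝ) : ℂ :=
  ∫ t : ℝ, ((Real.log ‖l t‖ : ℝ) : ℂ) * (φ t * Complex.exp (Complex.I * y * t))

/-- The asymptotic formula `y ∫ log |l(t)| φ(t) e^{iyt} dt → π c φ(0)` as `y → ∞`, for all test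
functions `φ` with support in the segment `|t| < λ`. -/
def EdgeAsymptoticOn (lam : ℝ) (l : ℝ → ℂ) (c : ℂ) : Prop := ∀ φ : ℝ → ℂ, IsTest φ →
  (∀ t ∈ tsupport φ, |t| < lam) →
  Tendsto (fun y : ℝ => (y : ℂ) * edgeIntegral l φ y) atTop (𝓝 (Real.pi * c * φ 0))

/-- The asymptotic formula for all test functions. -/
def EdgeAsymptotic (l : ℝ → ℂ) (c : ℂ) : Prop := ∀ φ : ℝ → ℂ, IsTest φ →
  Tendsto (fun y : ℝ => (y : ℂ) * edgeIntegral l φ y) atTop (𝓝 (Real.pi * c * φ 0))

/-- `L` is continued to a neighbourhood of every point `1 + it`, `|t| < λ`, and `(z - 1)^m L(z)` is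
holomorphic and not zero there: no zeros and poles except for a pole of order `m` at `1`. -/
def ContinuesOnSegment (L : ℂ → ℂ) (m : ℤ) (lam : ℝ) : Prop := ∀ t : ℝ, |t| < lam →
  ∃ Φ : ℂ → ℂ, AnalyticAt ℂ Φ (edgePoint t) ∧ Φ (edgePoint t) ≠ 0 ∧
    ∀ᶠ z in 𝓝 (edgePoint t), 1 < z.re → L z * (z - 1) ^ m = Φ z

/-- A continuous unitary representation of `G`. -/
structure Representation (G : Type) [Group G] [TopologicalSpace G] where
  /-- the dimension -/
  dim : ℕ
  /-- the homomorphism -/
  hom : G →* Matrix.unitaryGroup (Fin dim) ℂ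
  /-- it is continuous -/
  continuous : Continuous hom

/-- The character of a representation. -/
noncomputable def character [TopologicalSpace G] (τ : Representation G) (g : G) : ℂ :=
  Matrix.trace (τ.hom g).1

/-- `f` is a class function. -/
def IsClassFunction (f : G → ℂ) : Prop := ∀ x g, f (g⁻¹ * x * g) = f x

/-- The classes `x_p`, `p ∉ S`, are equidistributed for the image of `μ` in the space of the
conjugacy classes of `G` (Q1). -/
def Equidistributed [TopologicalSpace G] [MeasurableSpace G] (μ : Measure G) (S : Set ℕ)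
    (x : ℕ → G) : Prop := ∀ f : G → ℂ, Continuous f → IsClassFunction f →
  Tendsto (mean S fun p => f (x p)) atTop (𝓝 (∫ g, f g ∂μ))

/-- The hypothesis of the criterion for the representations of the finite set `T` and the segment
`|t| < λ`. -/
def EdgeHypothesis [TopologicalSpace G] [MeasurableSpace G] (μ : Measure G) (S : Set ℕ)
    (x : ℕ → G) (T : Finset (Representation G)) (lam : ℝ) : Prop :=
  ∀ τ ∈ T, ∀ l, IsBoundaryFunction (LFunction S x τ.hom) l →
    EdgeAsymptoticOn lam l (∫ g, character τ g ∂μ)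

/-- Finitely many representations and a finite segment determine the lower density of the primes with
`x_p ∈ U` up to `ε`, for all `S` and all `x` at the same time. -/
def OpenCriterion [TopologicalSpace G] [MeasurableSpace G] (μ : Measure G) (U : Set G) (ε : ℝ) :
    Prop :=
  ∃ (T : Finset (Representation G)) (lam : ℝ), 0 < lam ∧
    ∀ S : Set ℕ, S.Finite → ∀ x : ℕ → G, EdgeHypothesis μ S x T lam →
      ∀ᶠ N : ℕ in atTop, μ.real U - ε ≤ share S x U N

/-- Finitely many representations and a finite segment determine the means of `f(x_p)` up to `ε`, for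
all `S` and all `x` at the same time. -/
def MeanCriterion [TopologicalSpace G] [MeasurableSpace G] (μ : Measure G) (f : G → ℂ) (ε : ℝ) :
    Prop :=
  ∃ (T : Finset (Representation G)) (lam : ℝ), 0 < lam ∧
    ∀ S : Set ℕ, S.Finite → ∀ x : ℕ → G, EdgeHypothesis μ S x T lam →
      ∀ᶠ N : ℕ in atTop, ‖mean S (fun p => f (x p)) N - ∫ g, f g ∂μ‖ ≤ ε

/-- `L` has a boundary function; for every boundary function `l` the function `log |l|` is integrable
against test functions, and if `L` is continued to the segment `|t| < λ` of the edge, with a pole of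
order `m` at `1` and no other zeros and poles, then `l` satisfies the asymptotic formula with `c = m`
for the test functions with support in this segment. -/
def BoundaryFacts (L : ℂ → ℂ) : Prop :=
  (∃ l, IsBoundaryFunction L l) ∧ ∀ l, IsBoundaryFunction L l →
    (∀ φ : ℝ → ℂ, IsTest φ → ∀ y : ℝ, Integrable fun t : ℝ =>
      ((Real.log ‖l t‖ : ℝ) : ℂ) * (φ t * Complex.exp (Complex.I * y * t))) ∧
    ∀ (m : ℤ) (lam : ℝ), ContinuesOnSegment L m lam → EdgeAsymptoticOn lam l m

end Definitions

/-! ## Translation -/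

section Translation

open Pool.Agent.Q255.SG

variable {G : Type} [Group G] {n : ℕ}

theorem PS_set (S : Set ℕ) (N : ℕ) : {p : ℕ | p ≤ N ∧ p.Prime ∧ p ∉ S} =
    ((KL.PS S N : Finset ℕ) : Set ℕ) := by
  ext p
  rw [Finset.mem_coe, KL.mem_PS, Set.mem_setOf_eq, and_assoc]

theorem mean_eq (S : Set ℕ) (f : ℕ → ℂ) : mean S f = GQ.qmean S f := by
  funext N
  unfold mean GQ.qmean
  rw [PS_set, finsum_mem_coe_finset, Set.ncard_coe_finset]

theorem share_eq (S : Set ℕ) (x : ℕ → G) (U : Set G) (N : ℕ) : share S x U N =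
    GQ.sh S x U N := by
  classical
  unfold share GQ.sh
  have h1 : {p : ℕ | p ≤ N ∧ p.Prime ∧ p ∉ S ∧ x p ∈ U} =
      (((KL.PS S N).filter (fun p => x p ∈ U) : Finset ℕ) : Set ℕ) := by
    rw [Finset.coe_filter]
    ext p
    simp only [Set.mem_setOf_eq, KL.mem_PS]
    tauto
  rw [h1, PS_set, Set.ncard_coe_finset, Set.ncard_coe_finset]

theorem L_eq (S : Set ℕ) (x : ℕ → G) (τ : G →* Matrix.unitaryGroup (Fin n) ℂ) :
    LFunction S x τ = GQ.LQ S (fun p => τ (x p)) := rfl

theorem eq0_eq (t : ℝ) : Pool.Agent.Q255.SG.eq0 0 t = edgePoint t := by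
  unfold Pool.Agent.Q255.SG.eq0 edgePoint
  norm_num

theorem bf_iff {L : ℂ → ℂ} {l : ℝ → ℂ} :
    IsBoundaryFunction L l ↔ Pool.Agent.Q255.SG.AngBd 0 L l := by
  unfold IsBoundaryFunction Pool.Agent.Q255.SG.AngBd angle
  simp only [eq0_eq, show (0 : ℝ) / 2 + 1 = 1 by norm_num]

theorem cont_iff {L : ℂ → ℂ} {m : ℤ} {lam : ℝ} : ContinuesOnSegment L m lam ↔
    ∀ t0 : ℝ, |t0| < lam → ∃ Φ : ℂ → ℂ, AnalyticAt ℂ Φ (Pool.Agent.Q255.SG.eq0 0 t0) ∧
      Φ (Pool.Agent.Q255.SG.eq0 0 t0) ≠ 0 ∧ ∀ᶠ s in 𝓝 (Pool.Agent.Q255.SG.eq0 0 t0),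
        (0 : ℝ) / 2 + 1 < s.re → L s * (s - Pool.Agent.Q255.SG.eq0 0 0) ^ m = Φ s := by
  have e0 : edgePoint 0 = 1 := by
    unfold edgePoint
    simp
  unfold ContinuesOnSegment
  simp only [eq0_eq, e0, show (0 : ℝ) / 2 + 1 = 1 by norm_num]

def ofRp [TopologicalSpace G] (r : GQ.Rp G) : Representation G := ⟨r.1, r.2.1, r.2.2⟩

theorem ofRp_inj [TopologicalSpace G] : Function.Injective (ofRp (G := G)) := by
  rintro ⟨n, τ, h⟩ ⟨n', τ', h'⟩ e
  unfold ofRp at e
  cases e
  rfl

theorem hyp_iff [TopologicalSpace G] [MeasurableSpace G] (μ : Measure G) (S : Set ℕ) (x : ℕ → G)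
    (lam : ℝ) (τ : GQ.Rp G) : (∀ l, IsBoundaryFunction (LFunction S x (ofRp τ).hom) l →
      EdgeAsymptoticOn lam l (∫ g, character (ofRp τ) g ∂μ)) ↔ GQ.Hyp μ S x lam τ := by
  unfold GQ.Hyp
  simp only [bf_iff]
  rfl

end Translation

/-- **The finite criterion.**  Let `G` be a compact group (`ST^i(X)`) with normalised Haar measure
`μ`.

1. For every invariant open set `U` of `G` and `ε > 0` there are a finite set of continuous
representations `τ` of `G` and a `λ > 0` such that for all finite sets `S` of primes and all classes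
`x_p`: if `y ∫ log |l_τ(t)| φ(t) e^{iyt} dt → π c_τ φ(0)`, `c_τ = ∫ tr τ dμ`, for these `τ` and all test
functions `φ` with support in `|t| < λ`, then for all large `N` the share of the primes `p ≤ N` with
`x_p ∈ U` is at least `μ(U) - ε`.
2. The same for the means of `f(x_p)`, `f` a continuous class function: they are at distance at most `ε`
from `∫ f dμ`.
3. For every `S` and `x` and every continuous representation `τ` the function `L(τ, z)` has a boundary
function `l`, and `log |l|` is integrable against test functions; if `L(τ, z)` is continued to the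
segment `|t| < λ` of the edge, with a pole of order `m` at `1` and no other zeros and poles, then the
formula of 1 is true with `c_τ = m` for the test functions with support in `|t| < λ`.
4. Q1 is true (for `S` and `x`) if and only if the formula of 1 is true for all continuous `τ` and all
test functions `φ`. -/
theorem result (G : Type) [Group G] [TopologicalSpace G] [IsTopologicalGroup G] [CompactSpace G]
    [T2Space G] [MeasurableSpace G] [BorelSpace G] (μ : Measure G) [μ.IsHaarMeasure]
    [IsProbabilityMeasure μ] [μ.Regular] :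
    (∀ U : Set G, IsOpen U → (∀ x g, g⁻¹ * x * g ∈ U ↔ x ∈ U) → ∀ ε : ℝ, 0 < ε →
      OpenCriterion μ U ε) ∧
    (∀ f : G → ℂ, Continuous f → IsClassFunction f → ∀ ε : ℝ, 0 < ε → MeanCriterion μ f ε) ∧
    ∀ S : Set ℕ, S.Finite → ∀ x : ℕ → G,
      (∀ τ : Representation G, BoundaryFacts (LFunction S x τ.hom)) ∧
      (Equidistributed μ S x ↔ ∀ (τ : Representation G) (l : ℝ → ℂ),
        IsBoundaryFunction (LFunction S x τ.hom) l →
          EdgeAsymptotic l (∫ g, character τ g ∂μ)) := by
  refine ⟨fun U hU hinv ε hε => ?_, fun f hf hcl ε hε => ?_, fun S hS x => ⟨fun τ => ⟨?_,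
    fun l hl => ⟨fun φ hφ y => ?_, fun m lam hcont φ hφ hs => ?_⟩⟩, ?_, ?_⟩⟩
  · obtain ⟨T, lam, hlam, h⟩ := Pool.Agent.Q255.SG.GQ.finite_open μ hU hinv hε
    refine ⟨T.map ⟨ofRp, ofRp_inj⟩, lam, hlam, fun S hS x hyp => ?_⟩
    simp only [share_eq]
    exact h S hS x fun r hr => (hyp_iff μ S x lam r).1
      (hyp (ofRp r) (Finset.mem_map.2 ⟨r, hr, rfl⟩))
  · obtain ⟨T, lam, hlam, h⟩ := Pool.Agent.Q255.SG.GQ.finite_cont μ hf hcl hε
    refine ⟨T.map ⟨ofRp, ofRp_inj⟩, lam, hlam, fun S hS x hyp => ?_⟩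
    simp only [mean_eq]
    exact h S hS x fun r hr => (hyp_iff μ S x lam r).1
      (hyp (ofRp r) (Finset.mem_map.2 ⟨r, hr, rfl⟩))
  · obtain ⟨l, hl⟩ := Pool.Agent.Q255.SG.GQ.q_bdry S (fun p => τ.hom (x p))
    exact ⟨l, bf_iff.2 hl⟩
  · exact Pool.Agent.Q255.SG.GQ.q_int S (fun p => τ.hom (x p)) (bf_iff.1 hl) hφ y
  · exact Pool.Agent.Q255.SG.edge_of_loc
      (Pool.Agent.Q255.SG.loc_of_cont (bf_iff.1 hl) (cont_iff.1 hcont)) hφ hs
  · intro h τ l hl
    have hc : Continuous (character τ) :=
      (continuous_subtype_val.comp τ.continuous).matrix_trace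
    have h1 := h _ hc fun y g => Pool.Agent.Q255.SG.GK.trace_conj τ.hom y g
    rw [mean_eq] at h1
    exact (Pool.Agent.Q255.SG.GQ.q_iff (U := fun p => τ.hom (x p)) hS (bf_iff.1 hl) _).1 h1
  · intro h f hf hcl
    rw [mean_eq]
    refine Pool.Agent.Q255.SG.GQ.q_weyl μ S x (fun n τ hτ => ?_) hf hcl
    obtain ⟨l, hl⟩ := Pool.Agent.Q255.SG.GQ.q_bdry S (fun p => τ (x p))
    exact (Pool.Agent.Q255.SG.GQ.q_iff (U := fun p => τ (x p)) hS hl _).2
      (h ⟨n, τ, hτ⟩ l (bf_iff.2 hl))

end Pool.Agent.Results.MP_32ceeb_nt.FiniteCriterion
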