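import Pool.Agent.Q285.HS.Fam
import Pool.Agent.Y722.HS.Bad

/-!
# The Sato-Tate law of the middle cohomology of almost all hypersurfaces up to `O (d ^ (-1 / 2))`, in all intervals

Let `X` be a smooth hypersurface of degree `δ` and even dimension `n - 1 = 2 m` in `P ^ n` over `Q`. For a prime `p` of
good reduction `#X(F_p) = 1 + p + … + p ^ (n - 1) + t_p p ^ ((n - 1) / 2)`, where `t_p` is the trace of
Frobenius on the primitive part of `H ^ (n - 1)(X)((n - 1) / 2)`. The Sato-Tate conjecture for a general `X` of even dimension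
predicts for the numbers `t_p` the law of the traces of the random matrices of the full orthogonal group `O(b)`, `b` the dimension of the primitive
part, `b` about `δ ^ n`. Its moments of order at most `b` are those of the normal law.

It is proved, unconditionally, that this is true for almost all `X` for the moments of order at most `(δ + 1) / 2`, with an error
`Y ^ (1 / 2 + ε / 2)` for the sum over the primes in any interval below `Y`, and that the distribution function of the `t_p` is within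
`8 / √M` of the predicted one, `M = ⌊(δ + 1) / 4⌋`, for the primes in every interval `(Y, Y']` with at least `Y' ^ (1 / 2 + ε)` primes
(or in arbitrary sets of primes with at least so many elements in the interval).

The same is true for the members of even dimension of general linear systems: let `W` be a subscheme of odd dimension `D ≥ 2` of `P ^ n` with about `p ^ D`
points over the field with `p` elements, let `g_j` be forms, and let `V = W ∩ {∑_j g_j h_j = 0}`, `h_j` random forms of degree `d_j ≥ 4 M - 1`: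
the hypersurface sections of `W` of degree `deg g_j + d_j` which contain the subscheme `W ∩ {g_j = 0 for all j}`.

Proof. The values of forms of degree `k - 1` at `k` points are independent, therefore the moments of order at most `k` of the number of the
points over the field with `p` elements are those of the number of successes in independent trials with probability `1 / p`, which are near
the moments of the normal law. The chinese remainder theorem gives the second moments of the sums over primes, the inequality of Rademacher and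
Menshov makes them uniform over the intervals, and the inequality of Esseen turns moments into distribution functions (project MM of
helper282: helper285, helper177). The case of odd dimension is in `Results/MP_4c4ce6_nt/RandomHypersurfaces.lean`.
-/

set_option autoImplicit false

namespace Pool.Agent.Results.MP_32ceeb_nt.RandomHypersurfaces

open Finset MeasureTheory ProbabilityTheory MvPolynomial
open Pool.Agent.Y722.HS (Mon form IsSmooth)
open scoped LinearAlgebra.Projectivization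

/-- The number of the points of `P ^ n` over the field with `p` elements at which all forms in `S` vanish. -/
noncomputable def points {n : ℕ} (p : ℕ) (S : Set (MvPolynomial (Fin (n + 1)) ℤ)) : ℕ :=
  open scoped Classical in
  if h : p.Prime then
    haveI : Fact p.Prime := ⟨h⟩
    Nat.card {P : ℙ (ZMod p) (Fin (n + 1) → ZMod p) // ∀ G ∈ S, aeval P.rep G = 0}
  else 0

/-- The form `∑_j g_j h_j`, where `h_j` is the form of degree `d_j` with the coefficients `t (j, ·)`. -/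
noncomputable def member {n : ℕ} {J : Type} [Fintype J] {d : J → ℕ} (g : J → MvPolynomial (Fin (n + 1)) ℤ) (t : (Σ j : J, Mon n (d j)) → ℤ) :
    MvPolynomial (Fin (n + 1)) ℤ :=
  ∑ j, g j * form fun ν => t ⟨j, ν⟩

/-- The normalised deviation `(#V(F_p) - c_p) / p ^ ((D - 1) / 2)`, `V` the intersection of `W` and the hypersurface `F = 0`. -/
noncomputable def trace {n : ℕ} (W : Set (MvPolynomial (Fin (n + 1)) ℤ)) (D : ℕ) (c : ℕ → ℝ) (F : MvPolynomial (Fin (n + 1)) ℤ) (p : ℕ) : ℝ :=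
  ((points p (W ∪ {F}) : ℝ) - c p) / Real.sqrt p ^ (D - 1)

/-- The hypersurface `F = 0` is smooth over the algebraic closure of the field with `p` elements. -/
def Good {n : ℕ} (F : MvPolynomial (Fin (n + 1)) ℤ) (p : ℕ) : Prop :=
  ∀ _ : Fact p.Prime, IsSmooth (map (algebraMap (ZMod p) (AlgebraicClosure (ZMod p))) (map (Int.castRingHom (ZMod p)) F))

/-- The primes `p` in `S` with `Y < p ≤ Y'`. -/
def primesIn (S : Set ℕ) (Y Y' : ℕ) : Set ℕ := {p ∈ S | p.Prime ∧ Y < p ∧ p ≤ Y'}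

/-- The moments of the normal law. -/
def normalMoment (k : ℕ) : ℝ := if Even k then ((k - 1).doubleFactorial : ℝ) else 0

/-- The proportion of the `p` in `V` with `z_p ≤ x`. -/
noncomputable def proportion (V : Set ℕ) (z : ℕ → ℝ) (x : ℝ) : ℝ := ({p ∈ V | z p ≤ x}.ncard : ℝ) / V.ncard

/-- The numbers `z_p` have, over all intervals of primes, the moments of order at most `2 M` of the normal law and its distribution function up to
`4 / √M`, and up to `8 / √M` that of every law `ν` with these moments: for all `Y ≤ Y'` with `X₀ ≤ Y' ≤ R` and all `S` in `𝒮`, the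
sums and proportions over the `p` of `S` in `(Y, Y']` that are in `𝒢`. -/
def Typical (M : ℕ) (ε C : ℝ) (𝒮 : Finset (Set ℕ)) (𝒢 : Set ℕ) (X₀ : ℕ) (R : ℝ) (z : ℕ → ℝ) : Prop :=
  ∀ S ∈ 𝒮, ∀ Y Y' : ℕ, Y ≤ Y' → X₀ ≤ Y' → (Y' : ℝ) ≤ R →
    (∀ k ≤ 2 * M, |∑ᶠ p ∈ primesIn (S ∩ 𝒢) Y Y', (z p ^ k - normalMoment k)| ≤ C * (Y' : ℝ) ^ (1 / 2 + ε / 2)) ∧
    ((Y' : ℝ) ^ (1 / 2 + ε) ≤ (primesIn (S ∩ 𝒢) Y Y').ncard → ∀ x : ℝ,
      |proportion (primesIn (S ∩ 𝒢) Y Y') z x - (gaussianReal 0 1).real (Set.Iic x)| ≤ 4 / Real.sqrt M + C * (Y' : ℝ) ^ (-(ε / 2)) ∧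
      ∀ (ν : Measure ℝ) [IsProbabilityMeasure ν], (∀ k ≤ 2 * M, Integrable (fun y : ℝ => y ^ k) ν) →
        (∀ k ≤ 2 * M, ∫ y, y ^ k ∂ν = normalMoment k) →
        |proportion (primesIn (S ∩ 𝒢) Y Y') z x - ν.real (Set.Iic x)| ≤ 8 / Real.sqrt M + C * (Y' : ℝ) ^ (-(ε / 2)))

/-- The integer vectors `t` with `N i ≤ t i < N i + L i`. -/
noncomputable def box {κ : Type} [Fintype κ] [DecidableEq κ] (N : κ → ℤ) (L : κ → ℕ) : Finset (κ → ℤ) :=
  Fintype.piFinset fun i => Ico (N i) (N i + L i)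

/-- For all `𝒮`, all boxes with sides at least `T` and all `X₀` the vectors `t` of the box for which `z t` is not typical at the primes
in `𝒢 t` between `X₀` and `T ^ κ₀` are at most `C |𝒮| X₀ ^ (-ε / 2)` of all. -/
def AlmostAll {κ : Type} [Fintype κ] [DecidableEq κ] (M : ℕ) (ε κ₀ C : ℝ) (𝒢 : (κ → ℤ) → Set ℕ) (z : (κ → ℤ) → ℕ → ℝ) : Prop :=
  ∀ (𝒮 : Finset (Set ℕ)) (N : κ → ℤ) (L : κ → ℕ) (T : ℝ), 0 < T → (∀ i, T ≤ L i) → ∀ X₀ : ℕ, 1 ≤ X₀ →
    ({t ∈ box N L | ¬ Typical M ε C 𝒮 (𝒢 t) X₀ (T ^ κ₀) (z t)} : Set (κ → ℤ)).ncard ≤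
      C * 𝒮.card * (X₀ : ℝ) ^ (-(ε / 2)) * ∏ i, (L i : ℝ)

lemma points_eq {n : ℕ} (p : ℕ) (S : Set (MvPolynomial (Fin (n + 1)) ℤ)) : points p S = Q285HS.points p S := rfl

lemma member_eq {n : ℕ} {J : Type} [Fintype J] {d : J → ℕ} (g : J → MvPolynomial (Fin (n + 1)) ℤ) (t : (Σ j : J, Mon n (d j)) → ℤ) :
    member g t = Q285HS.fam g t := rfl

lemma gm_eq (k : ℕ) : normalMoment k = (Q282MM.gm k : ℝ) := by
  unfold normalMoment Q282MM.gm
  split_ifs <;> simp

lemma phi_eq (x : ℝ) : (gaussianReal 0 1).real (Set.Iic x) = Q282MM.Phi x := rfl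

/-- from the engine to the statement -/
lemma almost {κ : Type} [Fintype κ] [DecidableEq κ] {M β p₁ p₀ : ℕ} {K C₀ : ℝ} (hM : 1 ≤ M) (H : (p : ℕ) → (κ → ZMod p) → ℝ)
    (hH : Q285HS.NearN H (4 * M) β p₁ K) (Bad : (p : ℕ) → Set (κ → ZMod p)) (hBad : Q285HS.FewBad Bad p₀ C₀) (ε : ℝ) (hε : 0 < ε) (hε1 : ε ≤ 1)
    (𝒢 : (κ → ℤ) → Set ℕ) (z : (κ → ℤ) → ℕ → ℝ) (hz : ∀ t p, p.Prime → z t p = H p fun i => (t i : ZMod p))
    (hG : ∀ t p, p.Prime → (p ∈ 𝒢 t ↔ (fun i => (t i : ZMod p)) ∉ Bad p)) :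
    ∃ κ₀ : ℝ, 0 < κ₀ ∧ ∃ C : ℝ, AlmostAll M ε κ₀ C 𝒢 z := by
  classical
  obtain ⟨κ₀, hκ₀, C, hC, h⟩ := Q285HS.law hM hH Bad hBad ε hε hε1
  obtain ⟨_, _, _, hnu⟩ := Q282MM.emp Q282MM.fin_true M hM
  refine ⟨κ₀, hκ₀, C, fun 𝒮 N L T hT hTL X₀ hX₀ => ?_⟩
  choose E hE1 hE2 hE3 using fun S : Set ℕ => h S N L T hT hTL X₀ hX₀
  have hsub : ({t ∈ box N L | ¬ Typical M ε C 𝒮 (𝒢 t) X₀ (T ^ κ₀) (z t)} : Set (κ → ℤ)) ⊆ ↑(𝒮.biUnion E) := by
    rintro t ⟨ht, hnt⟩
    by_contra hno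
    rw [mem_coe, mem_biUnion] at hno
    push Not at hno
    refine hnt fun S hS Y Y' hYY hY hYT => ?_
    obtain ⟨h1, h2⟩ := hE3 S t ht (hno S hS) Y Y' hYY hY hYT
    have hset : primesIn (S ∩ 𝒢 t) Y Y' = ↑(Q285HS.VV Bad S Y Y' t) := by
      ext p
      unfold primesIn Q285HS.VV Q285HS.IV
      rw [mem_coe, mem_filter, mem_filter, mem_Ioc]
      constructor
      · rintro ⟨⟨h3, h4⟩, h5, h6, h7⟩
        exact ⟨⟨⟨h6, h7⟩, h5⟩, h3, (hG t p h5).1 h4⟩
      · rintro ⟨⟨⟨h6, h7⟩, h5⟩, h3, h4⟩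
        exact ⟨⟨h3, (hG t p h5).2 h4⟩, h5, h6, h7⟩
    have hpr : ∀ p ∈ Q285HS.VV Bad S Y Y' t, p.Prime := by
      intro p hp
      unfold Q285HS.VV Q285HS.IV at hp
      exact (mem_filter.1 (mem_filter.1 hp).1).2
    rw [hset]
    refine ⟨fun k hk => ?_, fun hcard x => ?_⟩
    · rw [finsum_mem_coe_finset]
      rw [sum_congr rfl fun p hp => by rw [hz t p (hpr p hp), gm_eq]]
      exact h1 k hk
    · rw [Set.ncard_coe_finset] at hcard
      have h3 : proportion (↑(Q285HS.VV Bad S Y Y' t)) (z t) x =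
          (((Q285HS.VV Bad S Y Y' t).filter fun p => H p (fun y => (t y : ZMod p)) ≤ x).card : ℝ) / (Q285HS.VV Bad S Y Y' t).card := by
        unfold proportion
        rw [Set.ncard_coe_finset]
        congr 2
        rw [← Set.ncard_coe_finset]
        congr 1
        ext p
        rw [mem_coe, mem_filter]
        constructor
        · rintro ⟨h4, h5⟩
          exact ⟨h4, by rw [← hz t p (hpr p h4)]; exact h5⟩
        · rintro ⟨h4, h5⟩
          exact ⟨h4, by rw [hz t p (hpr p h4)]; exact h5⟩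
      have h4 := h2 hcard x
      rw [← h3] at h4
      refine ⟨h4, fun ν _ hi hk => ?_⟩
      have h5 := hnu ν hi (fun k hk' => by rw [hk k hk', gm_eq]) x
      have h6 := abs_sub_le (proportion (↑(Q285HS.VV Bad S Y Y' t)) (z t) x) (Q282MM.Phi x) (ν.real (Set.Iic x))
      rw [abs_sub_comm (Q282MM.Phi x)] at h6
      have h7 : 8 / Real.sqrt M = 4 / Real.sqrt M + 4 / Real.sqrt M := by ring
      rw [h7]
      linarith
  have h1 := Set.ncard_le_ncard hsub (Finset.finite_toSet _)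
  rw [Set.ncard_coe_finset] at h1
  have h2 : ((𝒮.biUnion E).card : ℝ) ≤ ∑ S ∈ 𝒮, C * (X₀ : ℝ) ^ (-(ε / 2)) * ∏ i, (L i : ℝ) := by
    refine le_trans (Nat.cast_le.2 card_biUnion_le) ?_
    push_cast
    exact sum_le_sum fun S _ => hE2 S
  rw [sum_const, nsmul_eq_mul] at h2
  calc (({t ∈ box N L | ¬ Typical M ε C 𝒮 (𝒢 t) X₀ (T ^ κ₀) (z t)} : Set (κ → ℤ)).ncard : ℝ) ≤ ((𝒮.biUnion E).card : ℝ) := by exact_mod_cast h1
    _ ≤ _ := h2
    _ = _ := by ring

/-- **Part 1.** Members of linear systems on `W`. -/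
theorem systems {n : ℕ} {J : Type} [Fintype J] [DecidableEq J] (d : J → ℕ) (g : J → MvPolynomial (Fin (n + 1)) ℤ)
    (W : Set (MvPolynomial (Fin (n + 1)) ℤ)) (D p₀ : ℕ) (hD : 2 ≤ D) (C₀ : ℝ)
    (hW : ∀ p : ℕ, p.Prime → p₀ ≤ p → |(points p W : ℝ) - (p : ℝ) ^ D| ≤ C₀ * ((p : ℝ) ^ D / Real.sqrt p))
    (hB : ∀ p : ℕ, p.Prime → p₀ ≤ p → (points p (W ∪ Set.range g) : ℝ) ≤ C₀ * ((p : ℝ) ^ D / Real.sqrt p)) (c : ℕ → ℝ)
    (hc : ∀ p : ℕ, p.Prime → p₀ ≤ p → |(points p (W ∪ Set.range g) : ℝ) + ((points p W : ℝ) - points p (W ∪ Set.range g)) / p - c p| ≤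
      C₀ * (Real.sqrt p ^ (D - 1) / Real.sqrt p))
    (M : ℕ) (hM : 1 ≤ M) (hd : ∀ j, 4 * M ≤ d j + 1) (ε : ℝ) (hε : 0 < ε) (hε1 : ε ≤ 1) :
    ∃ κ₀ : ℝ, 0 < κ₀ ∧ ∃ C : ℝ, AlmostAll M ε κ₀ C (fun _ => Set.univ) fun t : (Σ j : J, Mon n (d j)) → ℤ => trace W D c (member g t) := by
  have hsz : Q285HS.Sz g W D p₀ C₀ := ⟨hW, hB⟩
  have hshf : ∀ p : ℕ, p.Prime → p₀ ≤ p → |Q285HS.shf g W D c p| ≤ C₀ / Real.sqrt p := by
    intro p hp hpp
    have hp0 : (0 : ℝ) < p := by exact_mod_cast hp.pos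
    have hs0 : 0 < Real.sqrt p := Real.sqrt_pos.2 hp0
    have h1 := hc p hp hpp
    unfold Q285HS.shf
    rw [abs_div, abs_of_pos (by positivity : (0 : ℝ) < Real.sqrt p ^ (D - 1)), div_le_iff₀ (by positivity)]
    refine h1.trans (le_of_eq ?_)
    ring
  obtain ⟨K, p₁, hN⟩ := Q285HS.near_tr (d := d) hD hsz c hshf (4 * M) hd
  refine almost hM _ hN (fun _ => ∅) (p₀ := 0) (C₀ := 0) ?_ ε hε hε1 _ _ (fun t p hp => ?_) (fun t p hp => ?_)
  · intro p _ _
    simp
  · exact Q285HS.tr_eq g W D c p hp t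
  · simp

/-- **Part 2.** Hypersurfaces, primes of good reduction. -/
theorem hypersurfaces (n δ : ℕ) (hn : 2 ≤ n) (hδ : 1 ≤ δ) (M : ℕ) (hM : 1 ≤ M) (hd : 4 * M ≤ δ + 1) (ε : ℝ) (hε : 0 < ε) (hε1 : ε ≤ 1) :
    ∃ κ₀ : ℝ, 0 < κ₀ ∧ ∃ C : ℝ, AlmostAll M ε κ₀ C (fun t => {p | Good (form t) p})
      fun t : Mon n δ → ℤ => trace ∅ n (fun p => ∑ i ∈ range n, (p : ℝ) ^ i) (form t) := by
  classical
  obtain ⟨K, p₁, hN⟩ := Q285HS.near_tr (d := fun _ : Unit => δ) (by omega) (Q285HS.sz_proj (n := n) (by omega)) (Q285HS.cen n)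
    (fun p hp _ => Q285HS.shf_proj p hp) (4 * M) (fun _ => hd)
  have hN' := Q285HS.near_equiv (Equiv.uniqueSigma fun _ : Unit => Mon n δ) hN
  obtain ⟨Bad, hBad⟩ : ∃ Bad : (p : ℕ) → Set (Mon n δ → ZMod p), Bad = fun p =>
      {u | ¬ ∀ _ : Fact p.Prime, IsSmooth (map (algebraMap (ZMod p) (AlgebraicClosure (ZMod p))) (form u))} := ⟨_, rfl⟩
  have hform : ∀ (t : Mon n δ → ℤ) (p : ℕ), map (Int.castRingHom (ZMod p)) (form t) = form fun m => (t m : ZMod p) := by
    intro t p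
    unfold Pool.Agent.Y722.HS.form
    simp [map_sum, map_prod]
  refine almost hM _ hN' Bad (p₀ := δ + 1) (C₀ := (Pool.Agent.Y722.HS.Delta n δ).totalDegree) ?_ ε hε hε1 _ _ (fun t p hp => ?_) (fun t p hp => ?_)
  · intro p hp hpp
    have : Fact p.Prime := ⟨hp⟩
    have hp0 : (0 : ℝ) < p := by exact_mod_cast hp.pos
    have h1 := Pool.Agent.Y722.HS.card_bad n δ p (fun h => by
      have := Nat.le_of_dvd (by omega) h
      omega)
    have h2 : (Bad p).ncard ≤ Nat.card {c : Mon n δ → ZMod p // Pool.Agent.Y722.HS.IsBad p c} := by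
      have h3 : Nat.card {c : Mon n δ → ZMod p // Pool.Agent.Y722.HS.IsBad p c} = ({c | Pool.Agent.Y722.HS.IsBad p c} : Set (Mon n δ → ZMod p)).ncard := rfl
      rw [h3]
      refine Set.ncard_le_ncard ?_ (Set.toFinite _)
      intro u hu
      rw [hBad] at hu
      by_contra hnb
      exact hu fun _ => Pool.Agent.Y722.HS.isSmooth_of_not_isBad p hδ u hnb
    have h3 : ((Bad p).ncard : ℝ) ≤ (Nat.card {c : Mon n δ → ZMod p // Pool.Agent.Y722.HS.IsBad p c} : ℝ) := by exact_mod_cast h2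
    rw [div_mul_eq_mul_div, le_div_iff₀ hp0]
    refine le_trans (mul_le_mul_of_nonneg_right h3 hp0.le) h1
  · have h1 := Q285HS.tr_eq (fun _ : Unit => (1 : MvPolynomial (Fin (n + 1)) ℤ)) ∅ n (Q285HS.cen n) p hp
      (fun x : Q285HS.Idx n (fun _ : Unit => δ) => t x.2)
    have h2 : Q285HS.fam (fun _ : Unit => (1 : MvPolynomial (Fin (n + 1)) ℤ)) (fun x : Q285HS.Idx n (fun _ : Unit => δ) => t x.2) = form t := by
      unfold Q285HS.fam Pool.Agent.Y722.HS.form
      simp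
    unfold Q285HS.tr at h1
    rw [h2] at h1
    exact h1
  · rw [hBad]
    show Good (form t) p ↔ ¬ ¬ _
    rw [not_not]
    unfold Good
    refine forall_congr' fun hF => ?_
    have h1 := hform t p
    have h2 : map (algebraMap (ZMod p) (AlgebraicClosure (ZMod p))) (map (Int.castRingHom (ZMod p)) (form t)) =
        map (algebraMap (ZMod p) (AlgebraicClosure (ZMod p))) (form fun m => (t m : ZMod p)) := congrArg _ h1
    exact iff_of_eq (congrArg IsSmooth h2)

/-- **The Sato-Tate law of random hypersurfaces and random members of linear systems, up to `O (M ^ (-1 / 2))`.** -/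
theorem result :
    -- members `V_t = W ∩ {∑ g_j h_j = 0}` of linear systems, of even dimension `D - 1`, and all primes
    (∀ (n : ℕ) (J : Type) [Fintype J] [DecidableEq J] (d : J → ℕ) (g : J → MvPolynomial (Fin (n + 1)) ℤ)
      (W : Set (MvPolynomial (Fin (n + 1)) ℤ)) (D p₀ : ℕ) (C₀ : ℝ), 2 ≤ D → Odd D →
      (∀ p : ℕ, p.Prime → p₀ ≤ p → |(points p W : ℝ) - (p : ℝ) ^ D| ≤ C₀ * ((p : ℝ) ^ D / Real.sqrt p)) →
      (∀ p : ℕ, p.Prime → p₀ ≤ p → (points p (W ∪ Set.range g) : ℝ) ≤ C₀ * ((p : ℝ) ^ D / Real.sqrt p)) →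
      ∀ c : ℕ → ℝ, (∀ p : ℕ, p.Prime → p₀ ≤ p → |(points p (W ∪ Set.range g) : ℝ) + ((points p W : ℝ) - points p (W ∪ Set.range g)) / p - c p| ≤
        C₀ * (Real.sqrt p ^ (D - 1) / Real.sqrt p)) →
      ∀ (M : ℕ), 1 ≤ M → (∀ j, 4 * M ≤ d j + 1) → ∀ ε : ℝ, 0 < ε → ε ≤ 1 →
      ∃ κ₀ : ℝ, 0 < κ₀ ∧ ∃ C : ℝ, AlmostAll M ε κ₀ C (fun _ => Set.univ) fun t : (Σ j : J, Mon n (d j)) → ℤ => trace W D c (member g t)) ∧
    -- hypersurfaces of degree `δ` and even dimension in `P ^ n`, and the primes of good reduction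
    (∀ n δ : ℕ, 2 ≤ n → Odd n → 1 ≤ δ → ∀ M : ℕ, 1 ≤ M → 4 * M ≤ δ + 1 → ∀ ε : ℝ, 0 < ε → ε ≤ 1 →
      ∃ κ₀ : ℝ, 0 < κ₀ ∧ ∃ C : ℝ, AlmostAll M ε κ₀ C (fun t => {p | Good (form t) p})
        fun t : Mon n δ → ℤ => trace ∅ n (fun p => ∑ i ∈ range n, (p : ℝ) ^ i) (form t)) :=
  ⟨fun n J _ _ d g W D p₀ C₀ hD _ hW hB c hc M hM hd ε hε hε1 => systems d g W D p₀ hD C₀ hW hB c hc M hM hd ε hε hε1,
    fun n δ hn _ hδ M hM hd ε hε hε1 => hypersurfaces n δ hn hδ M hM hd ε hε hε1⟩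

end Pool.Agent.Results.MP_32ceeb_nt.RandomHypersurfaces
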