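import Pool.Agent.Q282.TC.Defs
import Pool.Agent.Q282.SH.Short

/-!
# The characters of the Sato-Tate groups of the even cohomology of products of hyperelliptic curves in all short intervals

Let `K` be a number field with the ring of integers `𝓞`, for instance `K = ℚ`, and let `C_1, ..., C_s` be hyperelliptic curves of
genus `g_i`, `C_i : y ^ 2 = f_i(x)`, `f_i` a monic polynomial of degree `2 g_i + 1` over `𝓞`. Let `X` be a product of at most
`2 g_i + 1` copies of `C_i` for `i = 1, ..., s`. By the formula of Künneth the cohomology of `X` of even degree is, up to Tate twists,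
a sum of direct summands of the motives of even weight `w = ∑ c(i, j)`
`M_c = ⊗_i ⊗_j Λ ^ {c(i, j)} h¹(C_i)`, `c(i, 0) + ... + c(i, 2 g_i) ≤ 2 g_i + 1`,
and every `M_c` is a direct summand of the cohomology of degree `w` of such a product. Let `χ_c(x_v)` be the trace of the Frobenius
element at `v` on `M_c`, divided by `(N v) ^ (w / 2)`, and let `ρ(c)` be the dimension of the space of the invariants of
`∏ Sp(2 g_i)` in `M_c`: the product over `i` of the numbers of the symmetric matrices with entries in `ℕ`, even entries on the diagonal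
and row sums `c(i, j)`. The conjecture predicts, for Sato-Tate groups as large as possible, that the mean value of `χ_c(x_v)` is
`ρ(c)`; for the error only the Riemann hypothesis for the L-functions of the constituents of `M_c` would give a power saving, and
nothing for intervals which are shorter than the square root.

Let the coordinates of the coefficients of the `f_i` in a `ℤ`-basis of `𝓞` be taken at random in any box with sides at least `T`,
and let `Ψ(n)`, `n = 1, 2, ...`, be sets of at most `n ^ a` functions `ψ` on the primes of `K` with values in the closed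
unit disk, for instance of Hecke characters, or of the indicator functions of at most `n ^ a` arbitrary sets of primes.
It is proved, unconditionally, that there is a `κ > 0` such that, outside a proportion `O (X₀ ^ (-a))` of exceptions, for all these
`c` at the same time, all `Y ≤ Y'` with `X₀ ≤ Y' ≤ T ^ κ` and all `ψ` in `Ψ(Y')`
`|∑ ψ(v) (χ_c(x_v) - ρ(c))| ≤ (1 + n) ^ (1 / 2) Y' ^ ε`,
the sum over the `n` primes `v` of `K` with `Y < N v ≤ Y'`: square-root cancellation in every interval which contains at least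
`Y' ^ (3 ε)` primes, beyond the Riemann hypothesis.

Proof. For one prime `v` the mean of `χ_c` over the polynomials over the residue field is `ρ(c) + O ((N v) ^ (-1 / 2))` (elementary,
from the factorisation of squares into squarefree parts). High moments of the sum over the primes in the interval (the chinese
remainder theorem).
-/

set_option autoImplicit false

namespace Pool.Agent.Results.MP_32ceeb_nt.ShortIntervals

open Finset NumberField IsDedekindDomain Polynomial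
open Q282.TC

/-- The polynomials `f_i = X ^ (2 g_i + 1) + u (i, 2 g_i) X ^ (2 g_i) + ... + u (i, 0)`. -/
noncomputable def polynomials {R : Type} [CommRing R] {s : ℕ} {g : Fin s → ℕ} (u : (Σ i : Fin s, Fin (2 * g i + 1)) → R) (i : Fin s) : R[X] :=
  X ^ (2 * g i + 1) + ∑ l, C (u ⟨i, l⟩) * X ^ (l : ℕ)

/-- `ρ(c)`: the product over `i` of the numbers of the symmetric matrices with entries in `ℕ`, even entries on the diagonal and row
sums `c (i, 0), ..., c (i, 2 g_i)`. -/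
noncomputable def invariants {s : ℕ} {g : Fin s → ℕ} (c : (Σ i : Fin s, Fin (2 * g i + 1)) → ℕ) : ℕ :=
  ∏ i, Nat.card {S : Matrix (Fin (2 * g i + 1)) (Fin (2 * g i + 1)) ℕ //
    (∀ j k, S j k = S k j) ∧ (∀ j, Even (S j j)) ∧ ∀ j, ∑ k, S j k = c ⟨i, j⟩}

/-- `χ_c(x_v)`: the trace of the Frobenius element at `v` on `⊗_i ⊗_j Λ ^ {c (i, j)} H¹(C_i)`, `C_i : y ^ 2 = f_i(x)`, divided by
`(N v) ^ (w / 2)`, `w = ∑ c (i, j)`, if `v` is good (does not divide two, and all `f_i` are squarefree modulo `v`), and `0` otherwise. -/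
noncomputable def character {K : Type} [Field K] [NumberField K] {s : ℕ} {g : Fin s → ℕ} (f : Fin s → (𝓞 K)[X])
    (c : (Σ i : Fin s, Fin (2 * g i + 1)) → ℕ) (v : HeightOneSpectrum (𝓞 K)) : ℝ :=
  open scoped Classical in
  if Q282.PX.GoodP f v then traceM f c v 1 / (Real.sqrt (Ideal.absNorm v.asIdeal)) ^ (∑ x, c x) else 0

/-- The primes `v` of `K` with `Y < N v ≤ Y'`. -/
def interval (K : Type) [Field K] [NumberField K] (Y Y' : ℕ) : Set (HeightOneSpectrum (𝓞 K)) :=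
  {v | Y < Ideal.absNorm v.asIdeal ∧ Ideal.absNorm v.asIdeal ≤ Y'}

/-- The sum of `ψ(v) (χ_c(x_v) - ρ(c))` over the primes `v` with `Y < N v ≤ Y'`. -/
noncomputable def deviation {K : Type} [Field K] [NumberField K] {s : ℕ} {g : Fin s → ℕ} (f : Fin s → (𝓞 K)[X])
    (c : (Σ i : Fin s, Fin (2 * g i + 1)) → ℕ) (ψ : HeightOneSpectrum (𝓞 K) → ℂ) (Y Y' : ℕ) : ℂ :=
  ∑ᶠ v ∈ interval K Y Y', ψ v * ((character f c v - invariants c : ℝ) : ℂ)

/-- For all `c` with `c (i, 0) + ... + c (i, 2 g_i) ≤ 2 g_i + 1` for all `i`, all integers `Y ≤ Y'` with `X₀ ≤ Y' ≤ W` and all `ψ` in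
`Ψ(Y')`: the sum of `ψ(v) (χ_c(x_v) - ρ(c))` over the `n` primes `v` with `Y < N v ≤ Y'` is at most `(1 + n) ^ (1 / 2) Y' ^ ε`. -/
def Typical {K : Type} [Field K] [NumberField K] {s : ℕ} (g : Fin s → ℕ) (ε : ℝ) (Ψ : ℕ → Finset (HeightOneSpectrum (𝓞 K) → ℂ))
    (X₀ : ℕ) (W : ℝ) (f : Fin s → (𝓞 K)[X]) : Prop :=
  ∀ c : (Σ i : Fin s, Fin (2 * g i + 1)) → ℕ, (∀ i, ∑ j, c ⟨i, j⟩ ≤ 2 * g i + 1) →
    ∀ Y Y' : ℕ, Y ≤ Y' → X₀ ≤ Y' → (Y' : ℝ) ≤ W → ∀ ψ ∈ Ψ Y',
      ‖deviation f c ψ Y Y'‖ ≤ Real.sqrt (1 + (interval K Y Y').ncard) * (Y' : ℝ) ^ ε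

lemma exists_min {α : Type} (s : Finset α) (κ : α → ℝ) (h : ∀ x, 0 < κ x) : ∃ c : ℝ, 0 < c ∧ ∀ x ∈ s, c ≤ κ x := by
  classical
  induction s using Finset.induction_on with
  | empty => exact ⟨1, one_pos, fun f hf => absurd hf (notMem_empty f)⟩
  | insert x s _ ih =>
    obtain ⟨c, hc, h'⟩ := ih
    refine ⟨min c (κ x), lt_min hc (h x), fun y hy => ?_⟩
    rcases mem_insert.1 hy with rfl | hy
    · exact min_le_right _ _
    · exact (min_le_left _ _).trans (h' y hy)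

lemma interval_eq (K : Type) [Field K] [NumberField K] (Y Y' : ℕ) : interval K Y Y' = ↑(Q282.SH.IV K Y Y') := by
  ext v
  rw [mem_coe, Q282.SH.mem_IV]
  rfl

lemma deviation_eq {K : Type} [Field K] [NumberField K] {s : ℕ} {g : Fin s → ℕ} (f : Fin s → (𝓞 K)[X])
    (c : (Σ i : Fin s, Fin (2 * g i + 1)) → ℕ) (ψ : HeightOneSpectrum (𝓞 K) → ℂ) (Y Y' : ℕ) :
    deviation f c ψ Y Y' = ∑ v ∈ Q282.SH.IV K Y Y', ψ v * (((Ideal.absNorm v.asIdeal : ℝ) * valM f c v : ℝ) : ℂ) := by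
  unfold deviation
  rw [interval_eq, finsum_mem_coe_finset]
  refine sum_congr rfl fun v _ => ?_
  congr 2
  have h1 : (0 : ℝ) < Ideal.absNorm v.asIdeal := by
    have := Q282.TP.two_le v
    linarith
  unfold valM
  rw [mul_div_cancel₀ _ h1.ne']
  rfl

open Classical in
/-- Let `K` be a number field, let `C_i : y ^ 2 = f_i(x)`, `i = 1, ..., s`, be the curves with the polynomials
`f_i = X ^ (2 g_i + 1) + ...` over the ring of integers of `K`. For all `ε > 0` and `a` there are `κ > 0` and `C` with the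
following property. Let `b` be a basis of the ring of integers over `ℤ`, let `Ψ(n)` be sets of at most `n ^ a` functions on
the primes of `K` with values in the closed unit disk, let a box `N k ≤ ν k < N k + L k` be given all sides of which are at least `T`,
and `X₀ ≥ 1`. Then for all but at most a proportion `C X₀ ^ (-a)` of the `ν` of the box the polynomials with the coefficients
`t = comb b ν`, `t k = ∑ ν (k, l) b l`, have the property `Typical g ε Ψ X₀ (T ^ κ)`. -/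
theorem result (K : Type) [Field K] [NumberField K] (s : ℕ) (g : Fin s → ℕ) (ε : ℝ) (a : ℕ) (hε : 0 < ε) :
    ∃ κ : ℝ, 0 < κ ∧ ∃ C : ℝ, ∀ (b : Module.Basis (Fin (Module.finrank ℚ K)) ℤ (𝓞 K)) (Ψ : ℕ → Finset (HeightOneSpectrum (𝓞 K) → ℂ)),
      (∀ n, (Ψ n).card ≤ n ^ a) → (∀ n, ∀ ψ ∈ Ψ n, ∀ v, ‖ψ v‖ ≤ 1) →
      ∀ (N : (Σ i : Fin s, Fin (2 * g i + 1)) × Fin (Module.finrank ℚ K) → ℤ)
      (L : (Σ i : Fin s, Fin (2 * g i + 1)) × Fin (Module.finrank ℚ K) → ℕ) (T : ℝ), 0 < T → (∀ k, T ≤ L k) → ∀ X₀ : ℕ, 1 ≤ X₀ →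
      (((Q282.GK.kbox N L).filter fun ν => ¬ Typical g ε Ψ X₀ (T ^ κ) (polynomials (Q282.GK.comb b ν))).card : ℝ) ≤
        C * (X₀ : ℝ) ^ (-(a : ℝ)) * ∏ k, (L k : ℝ) := by
  -- the finite set of the exponents
  obtain ⟨𝒜, h𝒜⟩ : ∃ 𝒜 : Finset ((Σ i : Fin s, Fin (2 * g i + 1)) → ℕ), 𝒜 =
    (Fintype.piFinset fun x : (Σ i : Fin s, Fin (2 * g i + 1)) => range (2 * g x.1 + 2)).filter fun c => ∀ i, ∑ j, c ⟨i, j⟩ ≤ 2 * g i + 1 := ⟨_, rfl⟩
  have hmem : ∀ c : (Σ i : Fin s, Fin (2 * g i + 1)) → ℕ, c ∈ 𝒜 ↔ ∀ i, ∑ j, c ⟨i, j⟩ ≤ 2 * g i + 1 := by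
    intro c
    rw [h𝒜, mem_filter, Fintype.mem_piFinset]
    refine ⟨fun h => h.2, fun h => ⟨fun x => ?_, h⟩⟩
    have h1 : c ⟨x.1, x.2⟩ ≤ ∑ j, c ⟨x.1, j⟩ := single_le_sum (f := fun j => c ⟨x.1, j⟩) (fun _ _ => Nat.zero_le _) (mem_univ x.2)
    have h2 := h x.1
    have h3 : c x ≤ ∑ j, c ⟨x.1, j⟩ := h1
    rw [mem_range]
    omega
  have hloc : ∀ c : (Σ i : Fin s, Fin (2 * g i + 1)) → ℕ, ∃ B : ℝ, 0 < B ∧ (c ∈ 𝒜 → Q282.TP.LocZ K (Q282.TP.Jx g) B (fun v t => valM (Q282.TP.cu t) c v)) := by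
    intro c
    by_cases hc : c ∈ 𝒜
    · obtain ⟨B, hB, h2⟩ := loc_M K g c ((hmem c).1 hc)
      exact ⟨B, hB, fun _ => h2⟩
    · exact ⟨1, one_pos, fun h => absurd h hc⟩
  choose B hB hloc using hloc
  have hshort := fun c => Q282.SH.short K (Q282.TP.Jx g) (B c) ε a (hB c) hε
  choose κf hκf Cf hCf hshort using hshort
  obtain ⟨κ, hκ, hκmin⟩ := exists_min 𝒜 κf hκf
  refine ⟨κ, hκ, ∑ c ∈ 𝒜, Cf c, fun b Ψ hΨc hΨ1 N L T hT0 hTL X₀ hX₀ => ?_⟩
  have hb : ∀ x : 𝓞 K, ∃ a : Fin (Module.finrank ℚ K) → ℤ, x = ∑ j, (a j : 𝓞 K) * b j := by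
    intro x
    refine ⟨fun j => b.repr x j, ?_⟩
    have h1 := b.sum_repr x
    rw [← h1]
    refine sum_congr rfl fun j _ => ?_
    rw [h1, zsmul_eq_mul]
  have hX₀' : (1 : ℝ) ≤ X₀ := by exact_mod_cast hX₀
  have hpol : ∀ t : (Σ i : Fin s, Fin (2 * g i + 1)) → 𝓞 K, (polynomials t : Fin s → (𝓞 K)[X]) = Q282.TP.cu t := fun t => rfl
  obtain ⟨E, hE⟩ : ∃ E : ((Σ i : Fin s, Fin (2 * g i + 1)) → ℕ) → Finset ((Σ i : Fin s, Fin (2 * g i + 1)) × Fin (Module.finrank ℚ K) → ℤ), E = fun c =>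
      (Q282.GK.kbox N L).filter fun ν => ∃ X X' : ℕ, ∃ ψ ∈ Ψ X', X₀ ≤ X' ∧ X ≤ X' ∧ (X' : ℝ) ≤ T ^ κf c ∧
        Real.sqrt (1 + (Q282.SH.IV K X X').card) * (X' : ℝ) ^ ε <
          ‖∑ v ∈ Q282.SH.IV K X X', ψ v * (((Ideal.absNorm v.asIdeal : ℝ) * valM (Q282.TP.cu (Q282.GK.comb b ν)) c v : ℝ) : ℂ)‖ := ⟨_, rfl⟩
  have h1 : ∀ c ∈ 𝒜, ((E c).card : ℝ) ≤ Cf c * (X₀ : ℝ) ^ (-(a : ℝ)) * ∏ k, (L k : ℝ) := by
    intro c hc
    refine hshort c (fun j => b j) hb (fun v t => valM (Q282.TP.cu t) c v) (hloc c hc) Ψ hΨc hΨ1 N L T hT0 hTL X₀ hX₀ (E c)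
      (by rw [hE]; exact filter_subset _ _) ?_
    intro ν hν
    rw [hE] at hν
    exact (mem_filter.1 hν).2
  have h3 : ((Q282.GK.kbox N L).filter fun ν => ¬ Typical g ε Ψ X₀ (T ^ κ) (polynomials (Q282.GK.comb b ν))) ⊆ 𝒜.biUnion E := by
    intro ν hν
    rw [mem_filter] at hν
    by_contra hno
    rw [mem_biUnion] at hno
    push Not at hno
    refine hν.2 fun c hc Y Y' hYY hY hYT ψ hψ => ?_
    rw [hpol]
    have h4 := hno c ((hmem c).2 hc)
    rw [hE] at h4
    have hYr : (1 : ℝ) ≤ Y' := by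
      have : 1 ≤ Y' := hX₀.trans hY
      exact_mod_cast this
    have hT1 : 1 ≤ T := by
      by_contra hlt
      push Not at hlt
      have := Real.rpow_lt_one hT0.le hlt hκ
      linarith
    have hYT' : (Y' : ℝ) ≤ T ^ κf c := hYT.trans (Real.rpow_le_rpow_of_exponent_le hT1 (hκmin c ((hmem c).2 hc)))
    have e1 : (interval K Y Y').ncard = (Q282.SH.IV K Y Y').card := by
      rw [interval_eq, Set.ncard_coe_finset]
    rw [deviation_eq, e1]
    by_contra hlt
    push Not at hlt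
    exact h4 (mem_filter.2 ⟨hν.1, Y, Y', ψ, hψ, hY, hYY, hYT', hlt⟩)
  have h4 : (((Q282.GK.kbox N L).filter fun ν => ¬ Typical g ε Ψ X₀ (T ^ κ) (polynomials (Q282.GK.comb b ν))).card : ℝ) ≤
      ∑ c ∈ 𝒜, ((E c).card : ℝ) := by
    exact_mod_cast (card_le_card h3).trans card_biUnion_le
  refine h4.trans ((sum_le_sum h1).trans (le_of_eq ?_))
  rw [← sum_mul, ← sum_mul]

end Pool.Agent.Results.MP_32ceeb_nt.ShortIntervals
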